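import Mathlib
import Pool.Agent.Lib.helper7.LAut

set_option autoImplicit false

namespace Pool.Agent.Results.MP_d8fac8_al.LexNotBase

/-- An injective group homomorphism preserving binary joins and meets. -/
def IsLEmbedding {G H : Type*} [Group G] [Lattice G] [Group H] [Lattice H] (f : G →* H) : Prop :=
  Function.Injective f ∧ (∀ x y, f (x ⊔ y) = f x ⊔ f y) ∧ (∀ x y, f (x ⊓ y) = f x ⊓ f y)

universe u

open Pool.Agent.Lib.helper7.LAut in
/-- The lexicographically ordered group `ℤ ×ₗ ℤ` is not an amalgamation base for the class of all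
lattice-ordered groups. -/
theorem result :
    ∃ (B C : Type) (_ : Group B) (_ : Lattice B) (_ : MulLeftMono B) (_ : MulRightMono B)
      (_ : Group C) (_ : Lattice C) (_ : MulLeftMono C) (_ : MulRightMono C)
      (f : Multiplicative (ℤ ×ₗ ℤ) →* B) (g : Multiplicative (ℤ ×ₗ ℤ) →* C),
      IsLEmbedding f ∧ IsLEmbedding g ∧
      ∀ (D : Type u) [Group D] [Lattice D] [MulLeftMono D] [MulRightMono D]
        (f' : B →* D) (g' : C →* D), IsLEmbedding f' → IsLEmbedding g' →
        f'.comp f ≠ g'.comp g :=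
  ⟨A × Multiplicative ℤ, Aut L, inferInstance, inferInstance, inferInstance, inferInstance,
    inferInstance, inferInstance, inferInstance, inferInstance, fB, gC,
    ⟨fB_inj, fB_mono.map_sup, fB_mono.map_inf⟩, ⟨gC_inj, gC_mono.map_sup, gC_mono.map_inf⟩,
    fun _ _ _ _ _ f' g' hf hg => no_amalgam f' g' hf.1 hf.2.2 hg.2.2⟩

end Pool.Agent.Results.MP_d8fac8_al.LexNotBase
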